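import Pool.Agent.H181R5.NLT.Stmts

set_option autoImplicit false

namespace Pool.Agent.H360R3.NLT

open Pool.Agent.H181R5.NLT

theorem taskNum2 : TaskNum2 := by
  intro s hs
  obtain ⟨r, hr1, hr2⟩ : ∃ r : ℕ, r ^ 4 ≤ s ∧ s < (r + 1) ^ 4 := by
    refine ⟨Nat.findGreatest (fun r => r ^ 4 ≤ s) s, ?_, ?_⟩
    · exact Nat.findGreatest_spec (P := fun r => r ^ 4 ≤ s) (m := 0) (Nat.zero_le _) (by simp)
    · by_contra hc
      have hc' := not_lt.1 hc
      have h1 : Nat.findGreatest (fun r => r ^ 4 ≤ s) s + 1 ≤ s :=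
        (Nat.le_self_pow (by norm_num) _).trans hc'
      have h2 := Nat.le_findGreatest (P := fun r => r ^ 4 ≤ s) h1 hc'
      omega
  have hroot : (s : ℝ) ^ (1 / 4 : ℝ) ≤ (r : ℝ) + 1 := by
    have h1 : (s : ℝ) ≤ ((r : ℝ) + 1) ^ 4 := by exact_mod_cast hr2.le
    have h2 := Real.rpow_le_rpow (by positivity) h1 (by norm_num : (0 : ℝ) ≤ 1 / 4)
    have h3 : (((r : ℝ) + 1) ^ 4) ^ (1 / 4 : ℝ) = (r : ℝ) + 1 := by
      rw [← Real.rpow_natCast, ← Real.rpow_mul (by positivity)]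
      norm_num
    rw [h3] at h2
    exact h2
  by_cases h12 : r < 12
  · left
    have : (r : ℝ) + 1 ≤ 12 := by
      have : (r : ℝ) < 12 := by exact_mod_cast h12
      have h : (r : ℝ) ≤ 11 := by exact_mod_cast (by omega : r ≤ 11)
      linarith
    linarith
  · right
    have h12' : 12 ≤ r := not_lt.1 h12
    have a1 : 12 * r ^ 3 ≤ r ^ 4 := by
      calc 12 * r ^ 3 ≤ r * r ^ 3 := Nat.mul_le_mul_right _ h12'
        _ = r ^ 4 := by ring
    have a2 : 12 * r ^ 2 ≤ r ^ 3 := by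
      calc 12 * r ^ 2 ≤ r * r ^ 2 := Nat.mul_le_mul_right _ h12'
        _ = r ^ 3 := by ring
    have a3 : 12 * r ≤ r ^ 2 := by
      calc 12 * r ≤ r * r := Nat.mul_le_mul_right _ h12'
        _ = r ^ 2 := by ring
    have hq : r ^ 3 ≤ 2 * (r ^ 3 / 2) + 1 := by omega
    set q := r ^ 3 / 2 with hqdef
    have hm : 12 * (r / 12) ≤ r := Nat.mul_div_le r 12
    have hm2 : r ≤ 12 * (r / 12) + 11 := by omega
    set m := r / 12 with hmdef
    refine ⟨r ^ 3, 40 * r, m, ?_, ?_, ?_, ?_, ?_⟩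
    · calc (r ^ 3) ^ 4 = (r ^ 4) ^ 3 := by ring
        _ ≤ s ^ 3 := Nat.pow_le_pow_left hr1 3
    · have h1 : r ^ 3 * (20 * r) ≤ (2 * q + 1) * (20 * r) := Nat.mul_le_mul_right _ hq
      have h2 : r ^ 3 * (20 * r) = 20 * r ^ 4 := by ring
      have h3 : (2 * q + 1) * (20 * r) = q * (40 * r) + 20 * r := by ring
      have h4 : (r + 1) ^ 4 = r ^ 4 + 4 * r ^ 3 + 6 * r ^ 2 + 4 * r + 1 := by ring
      rw [h2, h3] at h1
      rw [h4] at hr2
      show s ≤ q * (40 * r)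
      omega
    · have b1 : (12 * m) * (12 * m) ≤ r * r := Nat.mul_le_mul hm hm
      have b2 : ((12 * m) * (12 * m)) * (40 * r) ≤ (r * r) * (40 * r) := Nat.mul_le_mul_right _ b1
      have b3 : ((12 * m) * (12 * m)) * (40 * r) = 144 * (m ^ 2 * (40 * r)) := by ring
      have b4 : (r * r) * (40 * r) = 40 * r ^ 3 := by ring
      rw [b3, b4] at b2
      show m + m ^ 2 * (40 * r) ≤ q
      generalize m ^ 2 * (40 * r) = Y at b2 ⊢
      omega
    · have : r ≤ r ^ 4 := Nat.le_self_pow (by norm_num) _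
      omega
    · have h1 : (r : ℝ) ≤ 12 * m + 11 := by exact_mod_cast hm2
      have h2 : 1 ≤ m := by omega
      have h3 : (1 : ℝ) ≤ m := by exact_mod_cast h2
      linarith

end Pool.Agent.H360R3.NLT
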